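import Pool.Agent.H211.AD.Stm5
import Pool.Graph.R_seed8.Helper114.MontelSol

/-! Project AD211 (helper211), task EMPTY: the interior of `K` is empty. -/

set_option autoImplicit false

open Metric Set MeasureTheory Filter Topology

namespace Pool.Agent.H376.AD211

open Pool.Agent.H211.AD

variable {f : ℂ → ℂ} {U K : Set ℂ} {Cr : Finset ℂ} {ℓ : ℂ → ℕ} {δ₀ Cp rp c₀ μ : ℝ}

/-- branches of the inverses of the iterates on balls in the interior of `K` -/
theorem exists_branch (hs : Sys f U K Cr ℓ δ₀ Cp rp c₀ μ)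
    (h2 : ∀ z ∈ interior K, deriv f z ≠ 0) (h3 : ∀ z ∈ interior K, f z ∈ interior K)
    (h4 : ∀ z ∈ U, f z ∈ interior K → z ∈ interior K) (n : ℕ) :
    ∀ (y z : ℂ) (R : ℝ), 0 < R → ball y R ⊆ interior K → z ∈ interior K → f^[n] z = y →
      ∃ g : ℂ → ℂ, DifferentiableOn ℂ g (ball y R) ∧ g y = z ∧
        ∀ x ∈ ball y R, g x ∈ interior K ∧ f^[n] (g x) = x := by
  have hKU : K ⊆ U := (self_subset_cthickening K).trans hs.thick
  have hWK : interior K ⊆ K := interior_subset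
  induction n with
  | zero =>
    intro y z R hR hy hz hzy
    exact ⟨id, differentiableOn_id, hzy.symm, fun x hx => ⟨hy hx, rfl⟩⟩
  | succ n ih =>
    intro y z R hR hy hz hzy
    rw [Function.iterate_succ_apply] at hzy
    obtain ⟨g, hg1, hg2, hg3⟩ := ih y (f z) R hR hy (h3 z hz) hzy
    obtain ⟨G, hG1, hG2, hG3⟩ := hs.lift g y R hR hg1
      (fun x hx => self_subset_cthickening K (hWK (hg3 x hx).1))
      (by
        rintro x hxU ⟨x', hx', hxx'⟩
        refine h2 x (h4 x hxU ?_)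
        rw [← hxx']
        exact (hg3 x' hx').1) z (hKU (hWK hz)) hg2.symm
    refine ⟨G, hG1, hG2, fun x hx => ⟨?_, ?_⟩⟩
    · refine h4 _ (hG3 x hx).1 ?_
      rw [(hG3 x hx).2]
      exact (hg3 x hx).1
    · rw [Function.iterate_succ_apply, (hG3 x hx).2]
      exact (hg3 x hx).2

/-- periodic points in the interior of `K` are not attracting -/
theorem one_le_deriv (hs : Sys f U K Cr ℓ δ₀ Cp rp c₀ μ)
    (h2 : ∀ z ∈ interior K, deriv f z ≠ 0) (h3 : ∀ z ∈ interior K, f z ∈ interior K)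
    (h4 : ∀ z ∈ U, f z ∈ interior K → z ∈ interior K) {p : ℂ} (hp : p ∈ interior K) {m : ℕ}
    (hm : f^[m] p = p) : 1 ≤ ‖deriv f^[m] p‖ := by
  have hKU : K ⊆ U := (self_subset_cthickening K).trans hs.thick
  have hWK : interior K ⊆ K := interior_subset
  have hd : DifferentiableOn ℂ f^[m] (interior K) :=
    (hs.diff.mono (hWK.trans hKU)).iterate (fun z hz => h3 z hz) m
  obtain ⟨s, hs0, hsW⟩ := Metric.isOpen_iff.1 isOpen_interior p hp
  obtain ⟨B, hB⟩ := hs.cpt.isBounded.subset_closedBall (0 : ℂ)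
  by_contra hlt
  push Not at hlt
  have hD : 0 ≤ B / (s / 2) := by
    have h0 := hB (hWK hp)
    rw [mem_closedBall_zero_iff] at h0
    have : 0 ≤ B := (norm_nonneg p).trans h0
    positivity
  obtain ⟨k, hk⟩ := exists_pow_lt_of_lt_one (show (0 : ℝ) < 1 / (B / (s / 2) + 1) by positivity) hlt
  have hfix : f^[m * k] p = p := by
    rw [Function.iterate_mul]
    exact Function.IsFixedPt.iterate hm k
  obtain ⟨g, hg1, hg2, hg3⟩ := exists_branch hs h2 h3 h4 (m * k) p p s hs0 hsW hp hfix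
  have hder : HasDerivAt f^[m] (deriv f^[m] p) p :=
    (hd.differentiableAt (isOpen_interior.mem_nhds hp)).hasDerivAt
  have hder2 : HasDerivAt f^[m * k] (deriv f^[m] p ^ k) p := by
    have h := HasDerivAt.iterate p hder hm k
    rw [← Function.iterate_mul] at h
    exact h
  have hgd : HasDerivAt g (deriv g p) p :=
    (hg1.differentiableAt (ball_mem_nhds p hs0)).hasDerivAt
  have hcomp : HasDerivAt (f^[m * k] ∘ g) (deriv f^[m] p ^ k * deriv g p) p := by
    refine HasDerivAt.comp p ?_ hgd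
    rw [hg2]
    exact hder2
  have hid : HasDerivAt (f^[m * k] ∘ g) 1 p := by
    refine (hasDerivAt_id p).congr_of_eventuallyEq ?_
    filter_upwards [ball_mem_nhds p hs0] with x hx
    exact (hg3 x hx).2
  have h1 := hcomp.unique hid
  have hcau : ‖deriv g p‖ ≤ B / (s / 2) := by
    refine Complex.norm_deriv_le_of_forall_mem_sphere_norm_le (by positivity)
      (hg1.diffContOnCl_ball (closedBall_subset_ball (by linarith))) fun z hz => ?_
    have hz' : z ∈ ball p s := closedBall_subset_ball (by linarith) (sphere_subset_closedBall hz)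
    have h0 := hB (hWK (hg3 z hz').1)
    rwa [mem_closedBall_zero_iff] at h0
  have h5 : (1 : ℝ) = ‖deriv f^[m] p‖ ^ k * ‖deriv g p‖ := by
    rw [← norm_pow, ← norm_mul, h1, norm_one]
  have h6 : ‖deriv f^[m] p‖ ^ k * ‖deriv g p‖ ≤ 1 / (B / (s / 2) + 1) * (B / (s / 2)) :=
    mul_le_mul hk.le hcau (norm_nonneg _) (by positivity)
  have h7 : 1 / (B / (s / 2) + 1) * (B / (s / 2)) < 1 := by
    rw [one_div_mul_eq_div, div_lt_one (by positivity)]
    linarith
  linarith

/-- **The interior of `K` is empty.** -/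
theorem t_EMPTY (hNOCR : S_NOCR) (hDEEP : S_DEEP) (hEH : S_EH) : S_EMPTY := by
  intro f U K Cr ℓ δ₀ Cp rp c₀ μ hs
  by_contra hne
  obtain ⟨z₀, hz₀⟩ := Set.nonempty_iff_ne_empty.2 hne
  obtain ⟨_, h2, h3, h4, _⟩ := hNOCR f U K Cr ℓ δ₀ Cp rp c₀ μ hs
  obtain ⟨ϱ, hϱ, hdeep⟩ := hDEEP f U K Cr ℓ δ₀ Cp rp c₀ μ hs
  have hWK : interior K ⊆ K := interior_subset
  have hKU : K ⊆ U := (self_subset_cthickening K).trans hs.thick
  have hfW : MapsTo f (interior K) (interior K) := fun z hz => h3 z hz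
  have hdW : DifferentiableOn ℂ f (interior K) := hs.diff.mono (hWK.trans hKU)
  have hKc : IsClosed K := hs.cpt.isClosed
  have hFr : (frontier K).Nonempty := by
    rw [Set.nonempty_iff_ne_empty]
    intro h0
    have h1 : IsClopen K := isClopen_iff_frontier_eq_empty.2 h0
    rcases isClopen_iff.1 h1 with h | h
    · rw [h, interior_empty] at hz₀
      exact hz₀
    · have h5 := hs.cpt
      rw [h] at h5
      exact noncompact_univ ℂ h5
  have hdc : Continuous fun z => infDist z (frontier K) := continuous_infDist_pt _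
  have hdpos : ∀ z ∈ K, 0 < infDist z (frontier K) → z ∈ interior K := by
    intro z hz hd
    by_contra h0
    have h1 : z ∈ frontier K := by
      rw [hKc.frontier_eq]
      exact ⟨hz, h0⟩
    rw [infDist_zero_of_mem h1] at hd
    exact lt_irrefl _ hd
  have hdW' : ∀ z ∈ interior K, 0 < infDist z (frontier K) := by
    intro z hz
    rw [← isClosed_frontier.notMem_iff_infDist_pos hFr, hKc.frontier_eq]
    exact fun h => h.2 hz
  obtain ⟨B, hB⟩ := hs.cpt.isBounded.subset_closedBall (0 : ℂ)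
  set Ω : Set ℂ := interior K ∩ {z | ϱ / 2 < infDist z (frontier K)} with hΩ
  set Γ : Set ℂ := K ∩ {z | ϱ ≤ infDist z (frontier K)} with hΓ
  have hΩo : IsOpen Ω := isOpen_interior.inter (isOpen_lt continuous_const hdc)
  have hΩb : Bornology.IsBounded Ω := hs.cpt.isBounded.subset (inter_subset_left.trans hWK)
  have hΓc : IsCompact Γ := hs.cpt.inter_right (isClosed_le continuous_const hdc)
  have hΓΩ : Γ ⊆ Ω := by
    rintro z ⟨hz1, hz2⟩
    have hz3 : ϱ ≤ infDist z (frontier K) := hz2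
    refine ⟨hdpos z hz1 (hϱ.trans_le hz3), ?_⟩
    change ϱ / 2 < infDist z (frontier K)
    linarith
  -- the orbit of `z₀`
  obtain ⟨N₀, hN₀⟩ := hdeep (infDist z₀ (frontier K) / 2) (half_pos (hdW' z₀ hz₀))
  have hitW : ∀ (n : ℕ) (z : ℂ), z ∈ interior K → f^[n] z ∈ interior K := fun n z hz =>
    (hfW.iterate n) hz
  set w : ℕ → ℂ := fun n => f^[N₀ + n] z₀ with hw
  have hwΓ : ∀ n, w n ∈ Γ := fun n =>
    ⟨hWK (hitW _ _ hz₀), hN₀ (N₀ + n) (Nat.le_add_right _ _) z₀ hz₀ (half_lt_self (hdW' z₀ hz₀))⟩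
  obtain ⟨q, hq, φ, hφ, hlim⟩ := hΓc.tendsto_subseq hwΓ
  have hm : ∀ i, i + φ i ≤ φ (i + i) := fun i => hφ.add_le_nat i i
  set F : ℕ → ℂ → ℂ := fun i => f^[φ (i + i) - φ i] with hF
  have hFw : ∀ i, F i (w (φ i)) = w (φ (i + i)) := by
    intro i
    change f^[φ (i + i) - φ i] (f^[N₀ + φ i] z₀) = f^[N₀ + φ (i + i)] z₀
    have e : φ (i + i) - φ i + (N₀ + φ i) = N₀ + φ (i + i) := by
      have := hm i
      omega
    rw [← Function.iterate_add_apply, e]
  have hFd : ∀ i, DifferentiableOn ℂ (F i) Ω := fun i =>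
    (hdW.iterate hfW _).mono inter_subset_left
  have hFb : ∀ i, ∀ z ∈ Ω, ‖F i z‖ ≤ B := by
    intro i z hz
    have h0 := hB (hWK (hitW (φ (i + i) - φ i) z hz.1))
    rwa [mem_closedBall_zero_iff] at h0
  set 𝒰 : Ultrafilter ℕ := Filter.hyperfilter ℕ with h𝒰
  have hle : (𝒰 : Filter ℕ) ≤ atTop := Nat.hyperfilter_le_atTop
  obtain ⟨ψ, hψd, hψ⟩ := Pool.Agent.Helper114.Montel.montel hΩo F hFd B hFb 𝒰
  have hψΓ : MapsTo ψ Ω Γ := by
    intro z hz
    obtain ⟨N, hN⟩ := hdeep (ϱ / 2) (half_pos hϱ)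
    refine hΓc.isClosed.mem_of_tendsto (hψ.tendsto_at hz) (hle ?_)
    filter_upwards [eventually_ge_atTop N] with i hi
    refine ⟨hWK (hitW _ _ hz.1), ?_⟩
    exact hN (φ (i + i) - φ i) (by have := hm i; omega) z hz.1 hz.2
  have hqΩ : q ∈ Ω := hΓΩ hq
  have hψc : ContinuousOn ψ Ω := hψd.continuousOn
  have hψq : ψ q = q := by
    have h5 : Tendsto (fun i => w (φ i)) (𝒰 : Filter ℕ) (𝓝[Ω] q) :=
      tendsto_nhdsWithin_iff.2 ⟨hlim.mono_left hle, Eventually.of_forall fun i => hΓΩ (hwΓ _)⟩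
    have h6 := hψ.tendsto_comp (hψc q hqΩ) hqΩ h5
    have h7 : Tendsto (fun i => w (φ (i + i))) (𝒰 : Filter ℕ) (𝓝 q) := by
      have h8 : Tendsto (fun i : ℕ => i + i) atTop atTop :=
        tendsto_atTop_mono (fun i => Nat.le_add_left i i) tendsto_id
      exact (hlim.comp h8).mono_left hle
    simp only [hFw] at h6
    exact tendsto_nhds_unique h6 h7
  have hlt := hEH Ω Γ ψ q hΩo hΩb hΓc hΓΩ hψd hψΓ hqΩ hψq
  -- a small ball
  set l' : ℝ := (‖deriv ψ q‖ + 1) / 2 with hl'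
  set l : ℝ := (l' + 1) / 2 with hl
  have hl'1 : l' < 1 := by rw [hl']; linarith
  have hl1 : l < 1 := by rw [hl]; linarith
  have hl'0 : 0 < l' := by
    have := norm_nonneg (deriv ψ q)
    rw [hl']; linarith
  have hl0 : 0 < l := by rw [hl]; linarith
  have hdψc : ContinuousAt (deriv ψ) q :=
    ((hψd.deriv hΩo).differentiableAt (hΩo.mem_nhds hqΩ)).continuousAt
  have hev : ∀ᶠ z in 𝓝 q, z ∈ Ω ∧ ‖deriv ψ z‖ < l' := by
    refine (show ∀ᶠ z in 𝓝 q, z ∈ Ω from hΩo.mem_nhds hqΩ).and ?_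
    refine hdψc.norm.eventually_lt continuousAt_const ?_
    rw [hl']; linarith
  obtain ⟨s, hs0, hsb⟩ := Metric.nhds_basis_closedBall.eventually_iff.1 hev
  have hsΩ : closedBall q s ⊆ Ω := fun z hz => (hsb hz).1
  have hde := hψ.deriv (Eventually.of_forall hFd) hΩo
  have hun := (tendstoLocallyUniformlyOn_iff_forall_isCompact hΩo).1 hde (closedBall q s) hsΩ
    (isCompact_closedBall q s)
  have he1 := Metric.tendstoUniformlyOn_iff.1 hun (l - l') (by rw [hl]; linarith)
  have he2 : ∀ᶠ i in (𝒰 : Filter ℕ), dist (F i q) q < (1 - l) * s := by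
    have h5 := hψ.tendsto_at hqΩ
    rw [hψq] at h5
    exact Metric.tendsto_nhds.1 h5 _ (mul_pos (by linarith) hs0)
  obtain ⟨i, hi1, hi2⟩ := (he1.and he2).exists
  have hWo : ∀ z ∈ closedBall q s, DifferentiableAt ℂ (F i) z := fun z hz =>
    (hFd i).differentiableAt (hΩo.mem_nhds (hsΩ hz))
  have hbd : ∀ z ∈ closedBall q s, ‖deriv (F i) z‖ ≤ l := by
    intro z hz
    have h5 := hi1 z hz
    rw [dist_comm, dist_eq_norm] at h5
    have h6 := (hsb hz).2
    have h7 : ‖deriv (F i) z‖ ≤ ‖deriv (F i) z - deriv ψ z‖ + ‖deriv ψ z‖ := by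
      have h8 := norm_add_le (deriv (F i) z - deriv ψ z) (deriv ψ z)
      rwa [sub_add_cancel] at h8
    have h9 : ‖deriv (F i) z - deriv ψ z‖ < l - l' := h5
    linarith
  have hlip : ∀ x ∈ closedBall q s, ∀ y ∈ closedBall q s, ‖F i y - F i x‖ ≤ l * ‖y - x‖ :=
    fun x hx y hy => (convex_closedBall q s).norm_image_sub_le_of_norm_deriv_le hWo hbd hx hy
  have hqs : q ∈ closedBall q s := mem_closedBall_self hs0.le
  have hmaps : MapsTo (F i) (closedBall q s) (closedBall q s) := by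
    intro z hz
    rw [mem_closedBall, dist_eq_norm] at hz ⊢
    have h5 := hlip q hqs z (by rw [mem_closedBall, dist_eq_norm]; exact hz)
    rw [dist_eq_norm] at hi2
    have h6 : ‖F i z - q‖ ≤ ‖F i z - F i q‖ + ‖F i q - q‖ := by
      have h8 := norm_add_le (F i z - F i q) (F i q - q)
      rwa [sub_add_sub_cancel] at h8
    have h7 : l * ‖z - q‖ ≤ l * s := mul_le_mul_of_nonneg_left hz hl0.le
    linarith
  obtain ⟨p, hp1, hp2, _⟩ := ContractingWith.exists_fixedPoint' (K := ⟨l, hl0.le⟩)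
    (isCompact_closedBall q s).isComplete hmaps
    ⟨by exact_mod_cast hl1, LipschitzWith.of_dist_le_mul fun x y => by
      rw [Subtype.dist_eq, Subtype.dist_eq, dist_eq_norm, dist_eq_norm]
      exact hlip y.1 y.2 x.1 x.2⟩ hqs (edist_ne_top _ _)
  have hpW : p ∈ interior K := (hsΩ hp1).1
  have h8 := one_le_deriv hs h2 h3 h4 hpW (m := φ (i + i) - φ i) hp2
  have h9 := hbd p hp1
  linarith

end Pool.Agent.H376.AD211
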